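import Pool.Agent.helper95.Sch.SM

/-!
Schneider project, module SP1: the weak form `B` of affine and quadratic functions.
-/

open scoped Pointwise ContDiff
open MeasureTheory Set Filter Topology

namespace Pool.Agent.helper41.Sch

/-- `d1` from a derivative along the line. -/
theorem SP_d1_eq {f : P → ℝ} {x : P} {f' : ℝ}
    (h : HasDerivAt (fun t : ℝ => f (x.1 + t, x.2)) f' 0) : d1 f x = f' := by
  have h1 : HasLineDerivAt ℝ f f' x ((1 : ℝ), (0 : ℝ)) := by
    unfold HasLineDerivAt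
    have : (fun t : ℝ => f (x + t • ((1 : ℝ), (0 : ℝ)))) = fun t : ℝ => f (x.1 + t, x.2) := by
      funext t
      congr 1
      ext <;> simp
    rw [this]
    exact h
  exact h1.lineDeriv

theorem SP_d2_eq {f : P → ℝ} {x : P} {f' : ℝ}
    (h : HasDerivAt (fun t : ℝ => f (x.1, x.2 + t)) f' 0) : d2 f x = f' := by
  have h1 : HasLineDerivAt ℝ f f' x ((0 : ℝ), (1 : ℝ)) := by
    unfold HasLineDerivAt
    have : (fun t : ℝ => f (x + t • ((0 : ℝ), (1 : ℝ)))) = fun t : ℝ => f (x.1, x.2 + t) := by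
      funext t
      congr 1
      ext <;> simp
    rw [this]
    exact h
  exact h1.lineDeriv

theorem SP_d1_const (c : ℝ) (x : P) : d1 (fun _ => c) x = 0 :=
  SP_d1_eq (hasDerivAt_const _ _)

theorem SP_d2_const (c : ℝ) (x : P) : d2 (fun _ => c) x = 0 :=
  SP_d2_eq (hasDerivAt_const _ _)

theorem B_affine {φ g : P → ℝ} (hφ : Cc φ) (hg : Lip g) (a : P) (c : ℝ) (U : Set P)
    (hU : IsOpen U) (hφU : tsupport φ ⊆ U) (f : P → ℝ) (hfU : ∀ x ∈ U, f x = dot a x + c) :
    B φ f g = 0 := by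
  rw [B_congr_left U hU hφU hfU, B_symm]
  have hs : ContDiff ℝ ∞ (fun x : P => dot a x + c) := by
    unfold dot
    fun_prop
  rw [B_lip_smooth hφ hg hs]
  have e1 : d1 (fun x : P => dot a x + c) = fun _ => a.1 := by
    funext x
    apply SP_d1_eq
    unfold dot
    have h := ((((hasDerivAt_id (0 : ℝ)).const_add x.1).const_mul a.1).add_const (a.2 * x.2)).add_const c
    simpa using h
  have e2 : d2 (fun x : P => dot a x + c) = fun _ => a.2 := by
    funext x
    apply SP_d2_eq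
    unfold dot
    have h := ((((hasDerivAt_id (0 : ℝ)).const_add x.2).const_mul a.2).const_add (a.1 * x.1)).add_const c
    simpa using h
  rw [e1, e2]
  simp only [SP_d1_const, SP_d2_const, mul_zero, add_zero, sub_zero, integral_zero]

theorem B_quad {φ f g : P → ℝ} (hφ : Cc φ) (hg : Lip g) (U : Set P) (hU : IsOpen U)
    (hφU : tsupport φ ⊆ U) (hfU : ∀ x ∈ U, f x = (x.1 ^ 2 + x.2 ^ 2) / 2) :
    B φ f g = (1 / 2) * ∫ x, g x * (d1 (d1 φ) x + d2 (d2 φ) x) := by
  rw [B_congr_left U hU hφU hfU, B_symm]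
  have hs : ContDiff ℝ ∞ (fun x : P => (x.1 ^ 2 + x.2 ^ 2) / 2) := by
    fun_prop
  rw [B_lip_smooth hφ hg hs]
  have e1 : d1 (fun x : P => (x.1 ^ 2 + x.2 ^ 2) / 2) = fun x => x.1 := by
    funext x
    apply SP_d1_eq
    have h := ((((hasDerivAt_id (0 : ℝ)).const_add x.1).pow 2).add_const (x.2 ^ 2)).div_const 2
    simpa using h
  have e2 : d2 (fun x : P => (x.1 ^ 2 + x.2 ^ 2) / 2) = fun x => x.2 := by
    funext x
    apply SP_d2_eq
    have h := ((((hasDerivAt_id (0 : ℝ)).const_add x.2).pow 2).const_add (x.1 ^ 2)).div_const 2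
    simpa using h
  have e11 : ∀ x, d1 (fun x : P => x.1) x = 1 := by
    intro x
    apply SP_d1_eq
    simpa using (hasDerivAt_id (0 : ℝ)).const_add x.1
  have e22 : ∀ x, d2 (fun x : P => x.2) x = 1 := by
    intro x
    apply SP_d2_eq
    simpa using (hasDerivAt_id (0 : ℝ)).const_add x.2
  have e12 : ∀ x, d1 (fun x : P => x.2) x = 0 := by
    intro x
    apply SP_d1_eq
    simpa using hasDerivAt_const (0 : ℝ) x.2
  rw [e1, e2]
  simp only [e11, e22, e12, mul_zero, mul_one, sub_zero]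

end Pool.Agent.helper41.Sch
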