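import Pool.Agent.helper79.Sch.SP1

/-!
Schneider project, module SP2: the weak form `B` of the crease functions `max (-x1) 0 and max x1 0`.
-/

open scoped Pointwise ContDiff
open MeasureTheory Set Filter Topology

namespace Pool.Agent.helper41.Sch

theorem SP_d1_fderiv {f : P → ℝ} (hf : ContDiff ℝ ∞ f) :
    d1 f = fun x => fderiv ℝ f x ((1 : ℝ), (0 : ℝ)) := by
  funext x
  exact ((hf.differentiable (by simp)) x).lineDeriv_eq_fderiv

theorem SP_d2_fderiv {f : P → ℝ} (hf : ContDiff ℝ ∞ f) :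
    d2 f = fun x => fderiv ℝ f x ((0 : ℝ), (1 : ℝ)) := by
  funext x
  exact ((hf.differentiable (by simp)) x).lineDeriv_eq_fderiv

theorem SP_contDiff_d1 {f : P → ℝ} (hf : ContDiff ℝ ∞ f) : ContDiff ℝ ∞ (d1 f) := by
  rw [SP_d1_fderiv hf]
  exact (hf.fderiv_right (m := ∞) (by simp)).clm_apply contDiff_const

theorem SP_contDiff_d2 {f : P → ℝ} (hf : ContDiff ℝ ∞ f) : ContDiff ℝ ∞ (d2 f) := by
  rw [SP_d2_fderiv hf]
  exact (hf.fderiv_right (m := ∞) (by simp)).clm_apply contDiff_const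

theorem SP_Cc_d1 {f : P → ℝ} (hf : Cc f) : Cc (d1 f) := by
  refine ⟨SP_contDiff_d1 hf.1, ?_⟩
  rw [SP_d1_fderiv hf.1]
  exact hf.2.fderiv_apply ℝ _

theorem SP_Cc_d2 {f : P → ℝ} (hf : Cc f) : Cc (d2 f) := by
  refine ⟨SP_contDiff_d2 hf.1, ?_⟩
  rw [SP_d2_fderiv hf.1]
  exact hf.2.fderiv_apply ℝ _

/-- A smooth approximation of `max (-t) 0`. -/
noncomputable def spU (t : ℝ) : ℝ := (Real.sqrt (t ^ 2 + 1) - t) / 2

noncomputable def spU1 (t : ℝ) : ℝ := (t / Real.sqrt (t ^ 2 + 1) - 1) / 2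

noncomputable def spU2 (t : ℝ) : ℝ := 1 / (2 * Real.sqrt (t ^ 2 + 1) ^ 3)

theorem spS_pos (t : ℝ) : 0 < Real.sqrt (t ^ 2 + 1) := Real.sqrt_pos.2 (by positivity)

theorem spS_sq (t : ℝ) : Real.sqrt (t ^ 2 + 1) ^ 2 = t ^ 2 + 1 := Real.sq_sqrt (by positivity)

theorem spS_deriv (t : ℝ) :
    HasDerivAt (fun t : ℝ => Real.sqrt (t ^ 2 + 1)) (t / Real.sqrt (t ^ 2 + 1)) t := by
  have h0 : HasDerivAt (fun t : ℝ => t ^ 2 + 1) (2 * t) t := by
    simpa using (hasDerivAt_pow 2 t).add_const (1 : ℝ)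
  have h := h0.sqrt (by positivity)
  convert h using 1
  have := spS_pos t
  field_simp

theorem spU_deriv (t : ℝ) : HasDerivAt spU (spU1 t) t := by
  have h := ((spS_deriv t).sub (hasDerivAt_id t)).div_const 2
  exact h

theorem spU1_deriv (t : ℝ) : HasDerivAt spU1 (spU2 t) t := by
  have h := ((((hasDerivAt_id' t).div (spS_deriv t) (spS_pos t).ne').sub_const 1).div_const 2)
  have e : spU2 t = (1 * Real.sqrt (t ^ 2 + 1) - t * (t / Real.sqrt (t ^ 2 + 1))) /
      Real.sqrt (t ^ 2 + 1) ^ 2 / 2 := by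
    unfold spU2
    have h1 := spS_pos t
    have h2 := spS_sq t
    field_simp
    nlinarith
  rw [e]
  exact h

theorem spU2_continuous : Continuous spU2 := by
  unfold spU2
  refine continuous_const.div (by fun_prop) (fun t => ?_)
  have := spS_pos t
  positivity

theorem spU1_continuous : Continuous spU1 := by
  rw [continuous_iff_continuousAt]
  intro t
  exact (spU1_deriv t).continuousAt

theorem spU_contDiff : ContDiff ℝ ∞ spU := by
  unfold spU
  refine ContDiff.div_const (ContDiff.sub (ContDiff.sqrt (by fun_prop) ?_) contDiff_id) _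
  intro t
  positivity

theorem spU2_nonneg (t : ℝ) : 0 ≤ spU2 t := by
  unfold spU2
  have := spS_pos t
  positivity

theorem spU1_abs (t : ℝ) : |spU1 t| ≤ 1 := by
  unfold spU1
  have h1 := spS_pos t
  have h2 := spS_sq t
  have h3 : |t / Real.sqrt (t ^ 2 + 1)| ≤ 1 := by
    rw [abs_div, abs_of_pos h1, div_le_one h1]
    apply Real.abs_le_sqrt
    linarith
  rw [abs_le] at h3 ⊢
  constructor <;> linarith [h3.1, h3.2]

theorem spU2_integrable : Integrable spU2 := by
  refine Integrable.mono' (integrable_inv_one_add_sq) spU2_continuous.aestronglyMeasurable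
    (Eventually.of_forall fun t => ?_)
  rw [Real.norm_eq_abs, abs_of_nonneg (spU2_nonneg t)]
  unfold spU2
  have h1 := spS_pos t
  have h2 := spS_sq t
  have h3 : 1 ≤ Real.sqrt (t ^ 2 + 1) := by
    rw [Real.one_le_sqrt]
    nlinarith [sq_nonneg t]
  rw [one_div]
  apply inv_anti₀ (by positivity)
  have : Real.sqrt (t ^ 2 + 1) ^ 3 = (t ^ 2 + 1) * Real.sqrt (t ^ 2 + 1) := by
    rw [pow_succ, h2]
  nlinarith [sq_nonneg t]

theorem sp_tendsto_ratio : Tendsto (fun t : ℝ => t / Real.sqrt (t ^ 2 + 1)) atTop (𝓝 1) := by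
  have h : Tendsto (fun t : ℝ => 1 / Real.sqrt (1 + (t⁻¹) ^ 2)) atTop (𝓝 (1 / Real.sqrt (1 + 0 ^ 2))) := by
    refine Tendsto.div tendsto_const_nhds ?_ (by simp)
    exact ((tendsto_inv_atTop_zero.pow 2).const_add 1).sqrt
  simp only [ne_eq, OfNat.ofNat_ne_zero, not_false_eq_true, zero_pow, add_zero, Real.sqrt_one,
    div_one] at h
  refine h.congr' ?_
  filter_upwards [eventually_gt_atTop 0] with t ht
  have e : Real.sqrt (t ^ 2 + 1) = t * Real.sqrt (1 + (t⁻¹) ^ 2) := by
    rw [show t ^ 2 + 1 = t ^ 2 * (1 + (t⁻¹) ^ 2) by field_simp, Real.sqrt_mul (by positivity),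
      Real.sqrt_sq ht.le]
  rw [e]
  have : 0 < Real.sqrt (1 + (t⁻¹) ^ 2) := Real.sqrt_pos.2 (by positivity)
  field_simp

theorem spU1_atTop : Tendsto spU1 atTop (𝓝 0) := by
  have h := (sp_tendsto_ratio.sub_const 1).div_const 2
  rw [sub_self, zero_div] at h
  exact h

theorem spU1_atBot : Tendsto spU1 atBot (𝓝 (-1)) := by
  have h := (((sp_tendsto_ratio.comp tendsto_neg_atBot_atTop).neg).sub_const 1).div_const 2
  have e : spU1 = fun t => (-((fun t : ℝ => t / Real.sqrt (t ^ 2 + 1)) ∘ Neg.neg) t - 1) / 2 := by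
    funext t
    simp only [spU1, Function.comp]
    rw [neg_sq]
    ring
  rw [e]
  convert h using 1
  norm_num

theorem spU2_integral : ∫ t, spU2 t = 1 := by
  have h := integral_of_hasDerivAt_of_tendsto (f := spU1) (f' := spU2) (fun t => spU1_deriv t)
    spU2_integrable spU1_atBot spU1_atTop
  rw [h]
  norm_num

/-- the approximating functions -/
noncomputable def spu (k : ℕ) (x : P) : ℝ := (1 / ((k : ℝ) + 1)) * spU (((k : ℝ) + 1) * x.1)

theorem spu_contDiff (k : ℕ) : ContDiff ℝ ∞ (spu k) := by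
  unfold spu
  exact contDiff_const.mul (spU_contDiff.comp (contDiff_const.mul contDiff_fst))

theorem spu_d1 (k : ℕ) : d1 (spu k) = fun x => spU1 (((k : ℝ) + 1) * x.1) := by
  funext x
  apply SP_d1_eq
  have hk : (0 : ℝ) < (k : ℝ) + 1 := by positivity
  have h0 : HasDerivAt (fun t : ℝ => ((k : ℝ) + 1) * (x.1 + t)) ((k : ℝ) + 1) 0 := by
    simpa using ((hasDerivAt_id (0 : ℝ)).const_add x.1).const_mul ((k : ℝ) + 1)
  have h1 : HasDerivAt spU (spU1 (((k : ℝ) + 1) * x.1)) (((k : ℝ) + 1) * (x.1 + 0)) := by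
    rw [add_zero]
    exact spU_deriv _
  have h := (h1.comp (0 : ℝ) h0).const_mul (1 / ((k : ℝ) + 1))
  have e : 1 / ((k : ℝ) + 1) * (spU1 (((k : ℝ) + 1) * x.1) * ((k : ℝ) + 1)) =
      spU1 (((k : ℝ) + 1) * x.1) := by field_simp
  rw [e] at h
  exact h

theorem spu_d2 (k : ℕ) : d2 (spu k) = fun _ => 0 := by
  funext x
  apply SP_d2_eq
  exact hasDerivAt_const (0 : ℝ) ((1 / ((k : ℝ) + 1)) * spU (((k : ℝ) + 1) * x.1))

theorem spu_d11 (k : ℕ) (x : P) :
    d1 (d1 (spu k)) x = ((k : ℝ) + 1) * spU2 (((k : ℝ) + 1) * x.1) := by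
  rw [spu_d1]
  apply SP_d1_eq
  have h0 : HasDerivAt (fun t : ℝ => ((k : ℝ) + 1) * (x.1 + t)) ((k : ℝ) + 1) 0 := by
    simpa using ((hasDerivAt_id (0 : ℝ)).const_add x.1).const_mul ((k : ℝ) + 1)
  have h1 : HasDerivAt spU1 (spU2 (((k : ℝ) + 1) * x.1)) (((k : ℝ) + 1) * (x.1 + 0)) := by
    rw [add_zero]
    exact spU1_deriv _
  have h := h1.comp (0 : ℝ) h0
  rw [mul_comm (spU2 _)] at h
  exact h

theorem spu_B {φ g : P → ℝ} (hφ : Cc φ) (hg : Lip g) (k : ℕ) :
    B φ (spu k) g = (1 / 2) * ∫ x : P, (g x * d2 (d2 φ) x) *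
      (((k : ℝ) + 1) * spU2 (((k : ℝ) + 1) * x.1)) := by
  rw [B_symm, B_lip_smooth hφ hg (spu_contDiff k)]
  congr 1
  apply integral_congr_ae
  refine Eventually.of_forall fun x => ?_
  simp only
  rw [spu_d11, spu_d2]
  simp only [SP_d1_const, SP_d2_const]
  ring

theorem sp_limit {G : P → ℝ} (hG : Continuous G) (hGc : HasCompactSupport G) :
    Tendsto (fun k : ℕ => ∫ x : P, G x * (((k : ℝ) + 1) * spU2 (((k : ℝ) + 1) * x.1))) atTop
      (𝓝 (∫ s : ℝ, G (0, s))) := by
  -- the function `Γ`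
  obtain ⟨R, hR⟩ : ∃ R : ℝ, ∀ x : P, R < ‖x‖ → G x = 0 := by
    obtain ⟨R, hR⟩ := hGc.isBounded.subset_closedBall (0 : P)
    refine ⟨R, fun x hx => ?_⟩
    by_contra h
    have := hR (subset_tsupport _ h)
    rw [mem_closedBall_zero_iff] at this
    linarith
  obtain ⟨C, hC⟩ : ∃ C : ℝ, ∀ x : P, |G x| ≤ C := by
    obtain ⟨C, hC⟩ := hG.bounded_above_of_compact_support hGc
    exact ⟨C, hC⟩
  have hC0 : 0 ≤ C := le_trans (abs_nonneg _) (hC 0)
  set Γ : ℝ → ℝ := fun t => ∫ s : ℝ, G (t, s) with hΓ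
  have hdom : Integrable (fun s : ℝ => (Icc (-R) R).indicator (fun _ => C) s) := by
    rw [integrable_indicator_iff measurableSet_Icc]
    exact integrableOn_const (by simp)
  have hbd : ∀ t s : ℝ, ‖G (t, s)‖ ≤ (Icc (-R) R).indicator (fun _ => C) s := by
    intro t s
    by_cases hs : s ∈ Icc (-R) R
    · rw [indicator_of_mem hs]
      exact hC _
    · rw [indicator_of_notMem hs]
      have : R < |s| := by
        rw [mem_Icc, ← abs_le] at hs
        exact not_le.1 hs
      have h2 : R < ‖((t, s) : P)‖ := lt_of_lt_of_le this (norm_snd_le ((t, s) : P))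
      rw [hR _ h2]
      simp
  have hΓc : Continuous Γ := by
    refine continuous_of_dominated (bound := fun s => (Icc (-R) R).indicator (fun _ => C) s) ?_ ?_ hdom ?_
    · intro t
      exact (hG.comp (by fun_prop)).aestronglyMeasurable
    · intro t
      exact Eventually.of_forall fun s => hbd t s
    · exact Eventually.of_forall fun s => hG.comp (by fun_prop)
  have hΓb : ∀ t, |Γ t| ≤ ∫ s : ℝ, (Icc (-R) R).indicator (fun _ => C) s := by
    intro t
    exact norm_integral_le_of_norm_le hdom (Eventually.of_forall fun s => hbd t s)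
  set M : ℝ := ∫ s : ℝ, (Icc (-R) R).indicator (fun _ => C) s with hM
  -- Fubini and scaling
  have key : ∀ k : ℕ, ∫ x : P, G x * (((k : ℝ) + 1) * spU2 (((k : ℝ) + 1) * x.1)) =
      ∫ t : ℝ, spU2 t * Γ (t / ((k : ℝ) + 1)) := by
    intro k
    have hk : (0 : ℝ) < (k : ℝ) + 1 := by positivity
    have hint : Integrable (fun x : P => G x * (((k : ℝ) + 1) * spU2 (((k : ℝ) + 1) * x.1))) := by
      apply Continuous.integrable_of_hasCompactSupport
      · exact hG.mul (continuous_const.mul (spU2_continuous.comp (by fun_prop)))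
      · exact hGc.mul_right
    rw [Measure.volume_eq_prod] at hint ⊢
    rw [integral_prod _ hint]
    have e1 : ∀ t : ℝ, ∫ s : ℝ, G (t, s) * (((k : ℝ) + 1) * spU2 (((k : ℝ) + 1) * (t, s).1)) =
        ((k : ℝ) + 1) * (fun y => spU2 y * Γ (y / ((k : ℝ) + 1))) (((k : ℝ) + 1) * t) := by
      intro t
      change ∫ s : ℝ, G (t, s) * (((k : ℝ) + 1) * spU2 (((k : ℝ) + 1) * t)) = _
      rw [integral_mul_const]
      simp only
      rw [mul_div_cancel_left₀ _ hk.ne']
      ring
    rw [integral_congr_ae (Eventually.of_forall e1), integral_const_mul,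
      Measure.integral_comp_mul_left (fun y => spU2 y * Γ (y / ((k : ℝ) + 1))),
      abs_of_pos (inv_pos.2 hk), smul_eq_mul, ← mul_assoc, mul_inv_cancel₀ hk.ne', one_mul]
  simp_rw [key]
  have hlim : Tendsto (fun k : ℕ => ∫ t : ℝ, spU2 t * Γ (t / ((k : ℝ) + 1))) atTop
      (𝓝 (∫ t : ℝ, spU2 t * Γ 0)) := by
    refine tendsto_integral_of_dominated_convergence (fun t => spU2 t * M) ?_ ?_ ?_ ?_
    · intro k
      exact (spU2_continuous.mul (hΓc.comp (by fun_prop))).aestronglyMeasurable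
    · exact spU2_integrable.mul_const M
    · intro k
      refine Eventually.of_forall fun t => ?_
      rw [norm_mul, Real.norm_eq_abs, abs_of_nonneg (spU2_nonneg t)]
      exact mul_le_mul_of_nonneg_left (hΓb _) (spU2_nonneg t)
    · refine Eventually.of_forall fun t => ?_
      refine Tendsto.mul tendsto_const_nhds ?_
      have h1 : Tendsto (fun k : ℕ => t / ((k : ℝ) + 1)) atTop (𝓝 0) :=
        tendsto_const_div_atTop_nhds_zero_nat t |>.comp (tendsto_add_atTop_nat 1) |>.congr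
          (fun k => by simp)
      exact (hΓc.tendsto 0).comp h1
  rw [integral_mul_const, spU2_integral, one_mul] at hlim
  exact hlim

theorem sp_lip_neg : Lip (fun x : P => max (-x.1) 0) := by
  refine ⟨1, ?_⟩
  have h : LipschitzWith 1 (fun x : P => -x.1) := LipschitzWith.prod_fst.neg
  simpa using h.max_const 0

theorem sp_null : ∀ᵐ x : P, x.1 ≠ 0 := by
  have : (volume : Measure P) {x : P | ¬ x.1 ≠ 0} = 0 := by
    have e : {x : P | ¬ x.1 ≠ 0} = ({0} : Set ℝ) ×ˢ (univ : Set ℝ) := by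
      ext x
      simp
    rw [e, Measure.volume_eq_prod, Measure.prod_prod]
    simp
  exact this

theorem sp_f_d2 : d2 (fun x : P => max (-x.1) 0) = fun _ => 0 := by
  funext x
  apply SP_d2_eq
  exact hasDerivAt_const (0 : ℝ) (max (-x.1) 0)

theorem sp_f_d1_neg {x : P} (hx : x.1 < 0) : d1 (fun x : P => max (-x.1) 0) x = -1 := by
  apply SP_d1_eq
  have h : HasDerivAt (fun t : ℝ => -(x.1 + t)) (-1) 0 := by
    exact ((hasDerivAt_id' (0 : ℝ)).const_add x.1).neg
  refine h.congr_of_eventuallyEq ?_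
  filter_upwards [Iio_mem_nhds (show (0 : ℝ) < -x.1 by linarith)] with t ht
  simp only [mem_Iio] at ht
  exact max_eq_left (by linarith)

theorem sp_f_d1_pos {x : P} (hx : 0 < x.1) : d1 (fun x : P => max (-x.1) 0) x = 0 := by
  apply SP_d1_eq
  have h : HasDerivAt (fun t : ℝ => (0 : ℝ)) 0 0 := hasDerivAt_const _ _
  refine h.congr_of_eventuallyEq ?_
  filter_upwards [Ioi_mem_nhds (show -x.1 < (0 : ℝ) by linarith)] with t ht
  simp only [mem_Ioi] at ht
  exact max_eq_right (by linarith)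

theorem spu_tendsto {x : P} (hx : x.1 ≠ 0) :
    Tendsto (fun k : ℕ => d1 (spu k) x) atTop (𝓝 (d1 (fun x : P => max (-x.1) 0) x)) := by
  simp_rw [spu_d1]
  have hk : Tendsto (fun k : ℕ => (k : ℝ) + 1) atTop atTop :=
    tendsto_atTop_add_const_right _ _ tendsto_natCast_atTop_atTop
  rcases lt_or_gt_of_ne hx with h | h
  · rw [sp_f_d1_neg h]
    exact spU1_atBot.comp (hk.atTop_mul_const_of_neg h)
  · rw [sp_f_d1_pos h]
    exact spU1_atTop.comp (hk.atTop_mul_const h)

theorem B_crease_neg {φ g : P → ℝ} (hφ : Cc φ) (hg : Lip g) :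
    B φ (fun x => max (-x.1) 0) g = (1 / 2) * ∫ s : ℝ, g (0, s) * d2 (d2 φ) (0, s) := by
  obtain ⟨K, hK⟩ := hg
  have hgc : Continuous g := hK.continuous
  have h12 : Cc (d1 (d2 φ)) := SP_Cc_d1 (SP_Cc_d2 hφ)
  have h22 : Cc (d2 (d2 φ)) := SP_Cc_d2 (SP_Cc_d2 hφ)
  have hm1 : Measurable (d1 g) := measurable_lineDeriv hgc
  have hm2 : Measurable (d2 g) := measurable_lineDeriv hgc
  have hb1 : ∀ x, |d1 g x| ≤ K := by
    intro x
    have h := norm_lineDeriv_le_of_lipschitz ℝ hK (x₀ := x) (v := ((1 : ℝ), (0 : ℝ)))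
    have e : ‖((1 : ℝ), (0 : ℝ))‖ = 1 := by
      rw [Prod.norm_def]; simp
    rw [e, mul_one] at h
    exact h
  have hb2 : ∀ x, |d2 g x| ≤ K := by
    intro x
    have h := norm_lineDeriv_le_of_lipschitz ℝ hK (x₀ := x) (v := ((0 : ℝ), (1 : ℝ)))
    have e : ‖((0 : ℝ), (1 : ℝ))‖ = 1 := by
      rw [Prod.norm_def]; simp
    rw [e, mul_one] at h
    exact h
  -- the left side
  have L : Tendsto (fun k : ℕ => B φ (spu k) g) atTop (𝓝 (B φ (fun x => max (-x.1) 0) g)) := by
    unfold B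
    refine Tendsto.const_mul _ ?_
    refine tendsto_integral_of_dominated_convergence
      (fun x => K * |d1 (d2 φ) x| + K * |d2 (d2 φ) x|) ?_ ?_ ?_ ?_
    · intro k
      rw [spu_d1, spu_d2]
      apply Measurable.aestronglyMeasurable
      have hu : Measurable (fun x : P => spU1 (((k : ℝ) + 1) * x.1)) :=
        (spU1_continuous.comp (by fun_prop)).measurable
      have h12m : Measurable (d1 (d2 φ)) := h12.1.continuous.measurable
      have h22m : Measurable (d2 (d2 φ)) := h22.1.continuous.measurable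
      have h11m : Measurable (d1 (d1 φ)) := (SP_Cc_d1 (SP_Cc_d1 hφ)).1.continuous.measurable
      exact ((((hu.mul hm2).add (measurable_const.mul hm1)).mul h12m).sub
        ((hu.mul hm1).mul h22m)).sub ((measurable_const.mul hm2).mul h11m)
    · refine Integrable.add ?_ ?_
      · exact (((h12.1.continuous.integrable_of_hasCompactSupport h12.2).abs).const_mul _)
      · exact (((h22.1.continuous.integrable_of_hasCompactSupport h22.2).abs).const_mul _)
    · intro k
      refine Eventually.of_forall fun x => ?_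
      rw [spu_d1, spu_d2]
      simp only [zero_mul, add_zero, sub_zero]
      have hu := spU1_abs (((k : ℝ) + 1) * x.1)
      have e1 : |spU1 (((k : ℝ) + 1) * x.1) * d2 g x * d1 (d2 φ) x| ≤ K * |d1 (d2 φ) x| := by
        rw [abs_mul, abs_mul]
        refine mul_le_mul_of_nonneg_right ?_ (abs_nonneg _)
        calc |spU1 (((k : ℝ) + 1) * x.1)| * |d2 g x| ≤ 1 * K :=
              mul_le_mul hu (hb2 x) (abs_nonneg _) zero_le_one
          _ = K := one_mul _
      have e2 : |spU1 (((k : ℝ) + 1) * x.1) * d1 g x * d2 (d2 φ) x| ≤ K * |d2 (d2 φ) x| := by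
        rw [abs_mul, abs_mul]
        refine mul_le_mul_of_nonneg_right ?_ (abs_nonneg _)
        calc |spU1 (((k : ℝ) + 1) * x.1)| * |d1 g x| ≤ 1 * K :=
              mul_le_mul hu (hb1 x) (abs_nonneg _) zero_le_one
          _ = K := one_mul _
      calc ‖_‖ ≤ |spU1 (((k : ℝ) + 1) * x.1) * d2 g x * d1 (d2 φ) x| +
            |spU1 (((k : ℝ) + 1) * x.1) * d1 g x * d2 (d2 φ) x| := abs_sub _ _
        _ ≤ _ := add_le_add e1 e2
    · filter_upwards [sp_null] with x hx
      have h := spu_tendsto hx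
      rw [sp_f_d2]
      simp_rw [spu_d2]
      exact ((((h.mul_const _).add tendsto_const_nhds).mul_const _).sub
        ((h.mul_const _).mul_const _)).sub tendsto_const_nhds
  -- the right side
  have Rr : Tendsto (fun k : ℕ => B φ (spu k) g) atTop
      (𝓝 ((1 / 2) * ∫ s : ℝ, g (0, s) * d2 (d2 φ) (0, s))) := by
    simp_rw [spu_B hφ ⟨K, hK⟩]
    refine Tendsto.const_mul _ ?_
    exact sp_limit (G := fun x => g x * d2 (d2 φ) x) (hgc.mul h22.1.continuous) h22.2.mul_left
  exact tendsto_nhds_unique L Rr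

theorem B_crease_pos {φ g : P → ℝ} (hφ : Cc φ) (hg : Lip g) :
    B φ (fun x => max x.1 0) g = (1 / 2) * ∫ s : ℝ, g (0, s) * d2 (d2 φ) (0, s) := by
  have e : (fun x : P => max x.1 0) = fun x => dot ((1 : ℝ), (0 : ℝ)) x + max (-x.1) 0 := by
    funext x
    unfold dot
    simp only [one_mul, zero_mul, add_zero]
    rcases le_total x.1 0 with h | h
    · rw [max_eq_right h, max_eq_left (by linarith)]; ring
    · rw [max_eq_left h, max_eq_right (by linarith)]; ring
  have hl : Lip (fun x : P => dot ((1 : ℝ), (0 : ℝ)) x) := by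
    refine ⟨1, ?_⟩
    have : (fun x : P => dot ((1 : ℝ), (0 : ℝ)) x) = Prod.fst := by
      funext x; simp [dot]
    rw [this]
    exact LipschitzWith.prod_fst
  rw [e, B_add_left hφ hl sp_lip_neg hg, B_crease_neg hφ hg,
    B_affine hφ hg ((1 : ℝ), (0 : ℝ)) 0 univ isOpen_univ (subset_univ _) _ (fun x _ => by simp),
    zero_add]

end Pool.Agent.helper41.Sch
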