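import Pool.Agent.helper61.Sch.MO
import Pool.Agent.helper79.Sch.SP2

/-!
Schneider project, module WA: weakly harmonic convex functions are flat.
-/

open scoped Pointwise ContDiff
open MeasureTheory Set Filter Topology

namespace Pool.Agent.helper41.Sch

theorem WA_expand (L : P →L[ℝ] ℝ) (v : P) :
    L v = v.1 * L ((1 : ℝ), (0 : ℝ)) + v.2 * L ((0 : ℝ), (1 : ℝ)) := by
  have e : v = v.1 • ((1 : ℝ), (0 : ℝ)) + v.2 • ((0 : ℝ), (1 : ℝ)) := by
    ext <;> simp
  conv_lhs => rw [e]
  rw [map_add, map_smul, map_smul, smul_eq_mul, smul_eq_mul]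

theorem WA_second {f : P → ℝ} (hf : ContDiff ℝ ∞ f) (x e u : P) :
    fderiv ℝ (fun y => fderiv ℝ f y e) x u = fderiv ℝ (fderiv ℝ f) x u e := by
  have hd : DifferentiableAt ℝ (fderiv ℝ f) x :=
    ((hf.fderiv_right (m := ∞) (by simp)).differentiable (by simp)) x
  have h := ((ContinuousLinearMap.apply ℝ ℝ e).hasFDerivAt.comp x hd.hasFDerivAt).fderiv
  have h2 : ((ContinuousLinearMap.apply ℝ ℝ e) ∘ (fderiv ℝ f)) = fun y => fderiv ℝ f y e := rfl
  rw [h2] at h
  rw [h]
  rfl

theorem WA_d11 {f : P → ℝ} (hf : ContDiff ℝ ∞ f) (x : P) :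
    d1 (d1 f) x = fderiv ℝ (fderiv ℝ f) x ((1 : ℝ), (0 : ℝ)) ((1 : ℝ), (0 : ℝ)) := by
  rw [SP_d1_fderiv (SP_contDiff_d1 hf), SP_d1_fderiv hf]
  exact WA_second hf x _ _

theorem WA_d22 {f : P → ℝ} (hf : ContDiff ℝ ∞ f) (x : P) :
    d2 (d2 f) x = fderiv ℝ (fderiv ℝ f) x ((0 : ℝ), (1 : ℝ)) ((0 : ℝ), (1 : ℝ)) := by
  rw [SP_d2_fderiv (SP_contDiff_d2 hf), SP_d2_fderiv hf]
  exact WA_second hf x _ _

theorem WA_d12 {f : P → ℝ} (hf : ContDiff ℝ ∞ f) (x : P) :
    d1 (d2 f) x = fderiv ℝ (fderiv ℝ f) x ((1 : ℝ), (0 : ℝ)) ((0 : ℝ), (1 : ℝ)) := by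
  rw [SP_d1_fderiv (SP_contDiff_d2 hf), SP_d2_fderiv hf]
  exact WA_second hf x _ _

theorem WA_affine {f : P → ℝ} (hf : ContDiff ℝ ∞ f) {R : ℝ} (hR : 0 < R)
    (h : ∀ x ∈ Metric.ball (0 : P) R, d1 (d1 f) x = 0 ∧ d2 (d2 f) x = 0 ∧ d1 (d2 f) x = 0)
    {w : P} (hw : ‖w‖ < R) : f w + f (-w) = 2 * f 0 := by
  have h0 : (0 : P) ∈ Metric.ball (0 : P) R := Metric.mem_ball_self hR
  have hb : IsPreconnected (Metric.ball (0 : P) R) := (convex_ball 0 R).isPreconnected
  have hdd : ∀ x ∈ Metric.ball (0 : P) R, fderiv ℝ (fderiv ℝ f) x = 0 := by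
    intro x hx
    obtain ⟨a, b, c⟩ := h x hx
    rw [WA_d11 hf] at a
    rw [WA_d22 hf] at b
    rw [WA_d12 hf] at c
    have hs : IsSymmSndFDerivAt ℝ f x := by
      refine (hf.contDiffAt (x := x)).isSymmSndFDerivAt ?_
      rw [minSmoothness_of_isRCLikeNormedField]
      exact WithTop.coe_le_coe.2 le_top
    have c' : fderiv ℝ (fderiv ℝ f) x ((0 : ℝ), (1 : ℝ)) ((1 : ℝ), (0 : ℝ)) = 0 := by
      rw [hs.eq]
      exact c
    refine ContinuousLinearMap.ext fun u => ContinuousLinearMap.ext fun v => ?_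
    have e1 : fderiv ℝ (fderiv ℝ f) x u = u.1 • fderiv ℝ (fderiv ℝ f) x ((1 : ℝ), (0 : ℝ)) +
        u.2 • fderiv ℝ (fderiv ℝ f) x ((0 : ℝ), (1 : ℝ)) := by
      have e : u = u.1 • ((1 : ℝ), (0 : ℝ)) + u.2 • ((0 : ℝ), (1 : ℝ)) := by
        ext <;> simp
      conv_lhs => rw [e]
      rw [map_add, map_smul, map_smul]
    rw [e1, WA_expand]
    simp [a, b, c, c']
  have hconst : ∀ x ∈ Metric.ball (0 : P) R, fderiv ℝ f x = fderiv ℝ f 0 := by
    intro x hx
    refine Metric.isOpen_ball.is_const_of_fderiv_eq_zero hb ?_ (fun y hy => hdd y hy) hx h0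
    exact ((hf.fderiv_right (m := ∞) (by simp)).differentiable (by simp)).differentiableOn
  obtain ⟨a, ha⟩ := Metric.isOpen_ball.exists_eq_add_of_fderiv_eq (𝕜 := ℝ)
    (g := fun x => fderiv ℝ f 0 x) hb
    (hf.differentiable (by simp)).differentiableOn
    (fderiv ℝ f 0).differentiable.differentiableOn
    (fun x hx => by
      rw [hconst x hx]
      exact ((fderiv ℝ f 0).fderiv).symm)
  have hw1 : w ∈ Metric.ball (0 : P) R := by simpa using hw
  have hw2 : -w ∈ Metric.ball (0 : P) R := by simpa using hw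
  have e1 := ha hw1
  have e2 := ha hw2
  have e3 := ha h0
  simp only [map_neg, map_zero] at e1 e2 e3
  rw [e1, e2, e3]
  ring

theorem flat_of_harmonic {g : P → ℝ} (hg : LC g) {r : ℝ} (hr : 0 < r)
    (h : ∀ φ, Test φ → tsupport φ ⊆ Metric.ball 0 r →
      ∫ x, g x * (d1 (d1 φ) x + d2 (d2 φ) x) = 0) (v : P) : FlatAt g 0 v := by
  obtain ⟨hconv, K, hK⟩ := hg
  have hgL : Lip g := ⟨K, hK⟩
  -- the mollified functions are affine near zero
  have key : ∀ k : ℕ, 1 / ((k : ℝ) + 1) < r / 2 → ∀ w : P, ‖w‖ < r / 2 →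
      moll k g w + moll k g (-w) = 2 * moll k g 0 := by
    intro k hk w hw
    refine WA_affine (moll_smooth k hgL) (half_pos hr) ?_ hw
    intro x hx
    have hx' : ‖x‖ < r / 2 := by simpa using hx
    have hcv : ConvexOn ℝ univ (moll k g) :=
      moll_convexOn k hgL hconv convex_univ (fun _ _ => subset_univ _)
    obtain ⟨p1, p2, p3⟩ := hess_psd (moll_smooth k hgL) isOpen_univ hcv (mem_univ x)
    have ht : Test (fun z => rho k (x - z)) := by
      obtain ⟨⟨s1, s2⟩, s3⟩ := rho_test k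
      refine ⟨⟨s1.comp (contDiff_const.sub contDiff_id), ?_⟩, fun z => s3 _⟩
      exact s2.comp_homeomorph (Homeomorph.subLeft x)
    have hts : tsupport (fun z => rho k (x - z)) ⊆ Metric.ball 0 r := by
      intro z hz
      have h1 : tsupport (fun z => rho k (x - z)) ⊆ Metric.closedBall x (1 / ((k : ℝ) + 1)) := by
        refine closure_minimal ?_ Metric.isClosed_closedBall
        intro y hy
        have : x - y ∈ tsupport (rho k) := subset_tsupport _ hy
        have h2 := rho_tsupport k this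
        rw [mem_closedBall_zero_iff] at h2
        rw [Metric.mem_closedBall, dist_comm, dist_eq_norm]
        exact h2
      have h2 := h1 hz
      rw [Metric.mem_closedBall, dist_eq_norm] at h2
      rw [mem_ball_zero_iff]
      calc ‖z‖ = ‖(z - x) + x‖ := by rw [sub_add_cancel]
        _ ≤ ‖z - x‖ + ‖x‖ := norm_add_le _ _
        _ < r := by linarith
    have h0 := h _ ht hts
    obtain ⟨m1, m2⟩ := moll_second k hgL x
    have hsum : d1 (d1 (moll k g)) x + d2 (d2 (moll k g)) x = 0 := by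
      rw [m1, m2, ← integral_add, ← h0]
      · refine integral_congr_ae (Eventually.of_forall fun y => ?_)
        simp only
        ring
      · have hc := SP_Cc_d1 (SP_Cc_d1 ht.1)
        exact (hK.continuous.mul hc.1.continuous).integrable_of_hasCompactSupport hc.2.mul_left
      · have hc := SP_Cc_d2 (SP_Cc_d2 ht.1)
        exact (hK.continuous.mul hc.1.continuous).integrable_of_hasCompactSupport hc.2.mul_left
    have q1 : d1 (d1 (moll k g)) x = 0 := by linarith
    have q2 : d2 (d2 (moll k g)) x = 0 := by linarith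
    refine ⟨q1, q2, ?_⟩
    rw [q1, zero_mul] at p3
    exact pow_eq_zero_iff (two_ne_zero) |>.1 (le_antisymm p3 (sq_nonneg _))
  set ε : ℝ := r / (4 * (‖v‖ + 1)) with hε
  have hv : 0 < ‖v‖ + 1 := by positivity
  have hε0 : 0 < ε := by positivity
  refine ⟨ε, hε0, ?_⟩
  have hw : ‖ε • v‖ < r / 2 := by
    rw [norm_smul, Real.norm_eq_abs, abs_of_pos hε0, hε]
    rw [div_mul_eq_mul_div, div_lt_div_iff₀ (by positivity) two_pos]
    nlinarith [norm_nonneg v]
  rw [zero_add, zero_sub]
  -- limit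
  have hlim : ∀ x : P, Tendsto (fun k : ℕ => moll k g x) atTop (𝓝 (g x)) := by
    intro x
    rw [tendsto_iff_dist_tendsto_zero]
    refine squeeze_zero (fun _ => dist_nonneg) (fun k => ?_)
      (g := fun k : ℕ => (K : ℝ) / ((k : ℝ) + 1)) ?_
    · rw [Real.dist_eq]
      exact moll_close k hK x
    · exact tendsto_const_div_atTop_nhds_zero_nat (K : ℝ) |>.comp (tendsto_add_atTop_nat 1) |>.congr
        (fun k => by simp)
  have hev : ∀ᶠ k : ℕ in atTop, 1 / ((k : ℝ) + 1) < r / 2 := by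
    have := tendsto_one_div_add_atTop_nhds_zero_nat (𝕜 := ℝ)
    exact this.eventually_lt_const (half_pos hr)
  have l1 : Tendsto (fun k : ℕ => moll k g (ε • v) + moll k g (-(ε • v))) atTop
      (𝓝 (g (ε • v) + g (-(ε • v)))) := (hlim _).add (hlim _)
  have l2 : Tendsto (fun k : ℕ => 2 * moll k g 0) atTop (𝓝 (2 * g 0)) := (hlim _).const_mul 2
  refine tendsto_nhds_unique (l1.congr' ?_) l2
  filter_upwards [hev] with k hk
  exact key k hk _ hw

theorem WA_int_d1 {ψ : P → ℝ} (hψ : Cc ψ) (s : ℝ) : ∫ t : ℝ, d1 ψ (t, s) = 0 := by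
  have hder : ∀ t : ℝ, HasDerivAt (fun t : ℝ => ψ (t, s)) (d1 ψ (t, s)) t := by
    intro t
    have h1 : HasFDerivAt ψ (fderiv ℝ ψ (t, s)) (t, s) :=
      ((hψ.1.differentiable (by simp)) (t, s)).hasFDerivAt
    have h2 : HasDerivAt (fun t : ℝ => ((t, s) : P)) ((1 : ℝ), (0 : ℝ)) t :=
      (hasDerivAt_id t).prodMk (hasDerivAt_const t s)
    have h3 := h1.comp_hasDerivAt t h2
    rw [SP_d1_fderiv hψ.1]
    exact h3
  have hc : HasCompactSupport (fun t : ℝ => ψ (t, s)) := by
    obtain ⟨R, hR⟩ := hψ.2.isBounded.subset_closedBall (0 : P)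
    refine HasCompactSupport.intro (isCompact_Icc (a := -R) (b := R)) (fun t ht => ?_)
    by_contra hne
    have h1 := hR (subset_tsupport _ hne)
    rw [mem_closedBall_zero_iff] at h1
    have h2 : |t| ≤ R := (norm_fst_le ((t, s) : P)).trans h1
    exact ht (abs_le.1 h2)
  have hc' : Continuous (fun t : ℝ => d1 ψ (t, s)) :=
    (SP_contDiff_d1 hψ.1).continuous.comp (by fun_prop)
  have hcs : HasCompactSupport (fun t : ℝ => d1 ψ (t, s)) := by
    have e : (fun t : ℝ => d1 ψ (t, s)) = deriv (fun t : ℝ => ψ (t, s)) := by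
      funext t
      exact (hder t).deriv.symm
    rw [e]
    exact hc.deriv
  exact integral_eq_zero_of_hasDerivAt_of_integrable hder
    (hc'.integrable_of_hasCompactSupport hcs)
    ((hψ.1.continuous.comp (by fun_prop : Continuous fun t : ℝ => ((t, s) : P))).integrable_of_hasCompactSupport hc)

theorem flat_of_line {g : P → ℝ} (hg : LC g) {r : ℝ} (hr : 0 < r)
    (h : ∀ φ, Test φ → tsupport φ ⊆ Metric.ball 0 r →
      ∫ s : ℝ, g (0, s) * d2 (d2 φ) (0, s) = 0) : FlatAt g 0 ((0 : ℝ), (1 : ℝ)) := by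
  obtain ⟨hconv, K, hK⟩ := hg
  set G : P → ℝ := fun x => g (0, x.2) with hG
  have hGK : LipschitzWith K G := by
    refine LipschitzWith.of_dist_le_mul fun x y => ?_
    refine (hK.dist_le_mul _ _).trans ?_
    refine mul_le_mul_of_nonneg_left ?_ K.2
    rw [Prod.dist_eq, Prod.dist_eq]
    simp
  have hGc : ConvexOn ℝ univ G := by
    refine ⟨convex_univ, fun x _ y _ a b ha hb hab => ?_⟩
    have := hconv.2 (mem_univ ((0 : ℝ), x.2)) (mem_univ ((0 : ℝ), y.2)) ha hb hab
    have e : G (a • x + b • y) = g (a • ((0 : ℝ), x.2) + b • ((0 : ℝ), y.2)) := by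
      simp [hG]
    rw [e]
    exact this
  have hflat : FlatAt G 0 ((0 : ℝ), (1 : ℝ)) := by
    refine flat_of_harmonic ⟨hGc, K, hGK⟩ (half_pos hr) ?_ _
    intro ψ hψ hψs
    have c11 := SP_Cc_d1 (SP_Cc_d1 hψ.1)
    have c22 := SP_Cc_d2 (SP_Cc_d2 hψ.1)
    have i1 : Integrable (fun x => G x * d1 (d1 ψ) x) :=
      (hGK.continuous.mul c11.1.continuous).integrable_of_hasCompactSupport c11.2.mul_left
    have i2 : Integrable (fun x => G x * d2 (d2 ψ) x) :=
      (hGK.continuous.mul c22.1.continuous).integrable_of_hasCompactSupport c22.2.mul_left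
    have e0 : ∫ x, G x * (d1 (d1 ψ) x + d2 (d2 ψ) x) =
        (∫ x, G x * d1 (d1 ψ) x) + ∫ x, G x * d2 (d2 ψ) x := by
      rw [← integral_add i1 i2]
      refine integral_congr_ae (Eventually.of_forall fun y => ?_)
      simp only
      ring
    have e1 : ∫ x, G x * d1 (d1 ψ) x = 0 := by
      rw [Measure.volume_eq_prod] at i1 ⊢
      rw [integral_prod_symm _ i1]
      have : ∀ s : ℝ, ∫ t : ℝ, G (t, s) * d1 (d1 ψ) (t, s) = 0 := by
        intro s
        change ∫ t : ℝ, g (0, s) * d1 (d1 ψ) (t, s) = 0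
        rw [integral_const_mul, WA_int_d1 (SP_Cc_d1 hψ.1), mul_zero]
      simp only [this, integral_zero]
    have e2 : ∫ x, G x * d2 (d2 ψ) x = 0 := by
      rw [Measure.volume_eq_prod] at i2 ⊢
      rw [integral_prod _ i2]
      have : ∀ t : ℝ, ∫ s : ℝ, G (t, s) * d2 (d2 ψ) (t, s) = 0 := by
        intro t
        change ∫ s : ℝ, g (0, s) * d2 (d2 ψ) (t, s) = 0
        -- translated test function
        set φ : P → ℝ := fun y => ψ (y + (t, 0)) with hφ
        have hd2 : ∀ (F : P → ℝ) (y : P), d2 (fun z => F (z + (t, 0))) y = d2 F (y + (t, 0)) := by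
          intro F y
          have e : (fun u : ℝ => F (y + u • ((0 : ℝ), (1 : ℝ)) + (t, 0))) =
              fun u : ℝ => F (y + (t, 0) + u • ((0 : ℝ), (1 : ℝ))) := by
            funext u
            rw [add_right_comm]
          unfold d2 lineDeriv
          rw [e]
        have hd22 : ∀ s : ℝ, d2 (d2 φ) (0, s) = d2 (d2 ψ) (t, s) := by
          intro s
          have a1 : d2 φ = fun z => d2 ψ (z + (t, 0)) := by
            funext z
            exact hd2 ψ z
          rw [a1, hd2 (d2 ψ)]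
          congr 1
          ext <;> simp
        by_cases ht : |t| < r / 2
        · have hφt : Test φ := by
            refine ⟨⟨hψ.1.1.comp (contDiff_id.add contDiff_const), ?_⟩, fun y => hψ.2 _⟩
            exact hψ.1.2.comp_homeomorph (Homeomorph.addRight ((t, 0) : P))
          have hφs : tsupport φ ⊆ Metric.ball 0 r := by
            intro z hz
            have h1 : z + (t, 0) ∈ tsupport ψ := by
              have hsub : tsupport φ ⊆ (fun y : P => y + (t, 0)) ⁻¹' tsupport ψ := by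
                refine closure_minimal ?_ ((isClosed_tsupport ψ).preimage (by fun_prop))
                intro y hy
                exact subset_tsupport ψ hy
              exact hsub hz
            have h2 := hψs h1
            rw [mem_ball_zero_iff] at h2 ⊢
            have h3 : ‖((t, 0) : P)‖ < r / 2 := by
              rw [Prod.norm_def]
              simp only [norm_zero, Real.norm_eq_abs]
              exact max_lt ht (half_pos hr)
            calc ‖z‖ = ‖(z + (t, 0)) - (t, 0)‖ := by rw [add_sub_cancel_right]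
              _ ≤ ‖z + (t, 0)‖ + ‖((t, 0) : P)‖ := norm_sub_le _ _
              _ < r := by linarith
          refine Eq.trans ?_ (h φ hφt hφs)
          refine integral_congr_ae (Eventually.of_forall fun s => ?_)
          simp only
          rw [hd22]
        · have : ∀ s : ℝ, d2 (d2 ψ) (t, s) = 0 := by
            intro s
            have hn : ((t, s) : P) ∉ tsupport ψ := by
              intro hm
              have h2 := hψs hm
              rw [mem_ball_zero_iff] at h2
              exact ht ((norm_fst_le ((t, s) : P)).trans_lt h2)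
            have hz : ψ =ᶠ[𝓝 ((t, s) : P)] 0 := notMem_tsupport_iff_eventuallyEq.1 hn
            have hz2 : ∀ᶠ y in 𝓝 ((t, s) : P), d2 ψ y = 0 := by
              filter_upwards [hz.eventuallyEq_nhds] with y hy
              have h5 : d2 ψ y = fderiv ℝ ψ y ((0 : ℝ), (1 : ℝ)) := by
                rw [SP_d2_fderiv hψ.1.1]
              rw [h5, hy.fderiv_eq]
              simp
            have hz3 : d2 ψ =ᶠ[𝓝 ((t, s) : P)] fun _ => 0 := hz2
            have h5 : d2 (d2 ψ) (t, s) = fderiv ℝ (d2 ψ) (t, s) ((0 : ℝ), (1 : ℝ)) := by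
              rw [SP_d2_fderiv (SP_contDiff_d2 hψ.1.1)]
            rw [h5, hz3.fderiv_eq]
            simp
          simp only [this, mul_zero, integral_zero]
      simp only [this, integral_zero]
    rw [e0, e1, e2, add_zero]
  obtain ⟨ε, hε, he⟩ := hflat
  refine ⟨ε, hε, ?_⟩
  have e1 : G (0 + ε • ((0 : ℝ), (1 : ℝ))) = g (0 + ε • ((0 : ℝ), (1 : ℝ))) := by
    simp [hG]
  have e2 : G (0 - ε • ((0 : ℝ), (1 : ℝ))) = g (0 - ε • ((0 : ℝ), (1 : ℝ))) := by
    simp [hG]
  have e3 : G 0 = g 0 := by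
    simp only [hG]
    rfl
  rw [← e1, ← e2, ← e3]
  exact he

end Pool.Agent.helper41.Sch
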